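import Pool.Agent.R753.SJ.F

set_option autoImplicit false
set_option linter.unusedSectionVars false

/-!
# Hulls of two convex sets, one of which spans a hyperplane
-/

namespace Pool.Agent.R753.PR

open scoped Topology
open Metric Filter

variable {E : Type} [NormedAddCommGroup E] [NormedSpace ℝ E] [FiniteDimensional ℝ E]

/-- the kernel of a functional -/
abbrev ke (ν : E →L[ℝ] ℝ) : Submodule ℝ E := LinearMap.ker ν.toLinearMap

/-- points of the open cone over a relative ball are interior points -/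
lemma cone_int {K : Set E} (hK : Convex ℝ K) (ν : E →L[ℝ] ℝ) {g z : E} {r : ℝ} (hr : 0 < r)
    (hg : ∀ w : E, ν w = 0 → ‖w‖ < r → g + w ∈ K) (hz : z ∈ K) (hν : ν g ≠ ν z) {τ : ℝ}
    (h0 : 0 < τ) (h1 : τ < 1) : (1 - τ) • g + τ • z ∈ interior K := by
  have hδ : ν z - ν g ≠ 0 := sub_ne_zero.2 (Ne.symm hν)
  set y₀ : E := (1 - τ) • g + τ • z with hy₀
  have hνy : ν y₀ = (1 - τ) * ν g + τ * ν z := by simp [hy₀]
  have hτ0 : (ν y₀ - ν g) / (ν z - ν g) = τ := by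
    rw [hνy]; field_simp; ring
  have hc1 : Continuous fun y : E => (ν y - ν g) / (ν z - ν g) := by fun_prop
  have hne : (1 : ℝ) - (ν y₀ - ν g) / (ν z - ν g) ≠ 0 := by rw [hτ0]; linarith
  have hc2 : ContinuousAt (fun y : E => (1 - (ν y - ν g) / (ν z - ν g))⁻¹ •
      (y - ((ν y - ν g) / (ν z - ν g)) • z)) y₀ := by
    refine ContinuousAt.smul (ContinuousAt.inv₀ ?_ hne) ?_
    · exact (continuous_const.sub hc1).continuousAt
    · exact (continuous_id.sub (hc1.smul continuous_const)).continuousAt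
  have hval : (1 - (ν y₀ - ν g) / (ν z - ν g))⁻¹ • (y₀ - ((ν y₀ - ν g) / (ν z - ν g)) • z) = g := by
    rw [hτ0, hy₀, add_sub_cancel_right, smul_smul, inv_mul_cancel₀ (by linarith), one_smul]
  have e1 : ∀ᶠ y in 𝓝 y₀, 0 < (ν y - ν g) / (ν z - ν g) :=
    hc1.continuousAt.eventually_const_lt (by
      show 0 < (ν y₀ - ν g) / (ν z - ν g)
      rw [hτ0]; exact h0)
  have e2 : ∀ᶠ y in 𝓝 y₀, (ν y - ν g) / (ν z - ν g) < 1 :=
    hc1.continuousAt.eventually_lt_const (by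
      show (ν y₀ - ν g) / (ν z - ν g) < 1
      rw [hτ0]; exact h1)
  have e3 : ∀ᶠ y in 𝓝 y₀, ‖(1 - (ν y - ν g) / (ν z - ν g))⁻¹ •
      (y - ((ν y - ν g) / (ν z - ν g)) • z) - g‖ < r := by
    have hc3 := (hc2.sub (continuousAt_const (y := g))).norm
    refine hc3.eventually_lt_const ?_
    show ‖(1 - (ν y₀ - ν g) / (ν z - ν g))⁻¹ • (y₀ - ((ν y₀ - ν g) / (ν z - ν g)) • z) - g‖ < r
    rw [hval, sub_self, norm_zero]
    exact hr
  rw [mem_interior_iff_mem_nhds]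
  filter_upwards [e1, e2, e3] with y h3 h4 h5
  set t := (ν y - ν g) / (ν z - ν g) with ht
  set x := (1 - t)⁻¹ • (y - t • z) with hx
  have h1t : (1 : ℝ) - t ≠ 0 := by linarith
  have hνx : ν (x - g) = 0 := by
    have h6 : ν y = ν g + t * (ν z - ν g) := by rw [ht]; field_simp; ring
    rw [hx]
    simp only [map_sub, map_smul, smul_eq_mul]
    rw [h6]
    field_simp
    ring
  have hxK : x ∈ K := by
    have := hg (x - g) hνx h5
    rwa [add_sub_cancel] at this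
  have hyx : y = (1 - t) • x + t • z := by
    rw [hx, smul_smul, mul_inv_cancel₀ h1t, one_smul]
    abel
  rw [hyx]
  exact hK hxK hz (by linarith) h3.le (by ring)

/-- a uniform gain -/
lemma gain {V : Type*} [NormedAddCommGroup V] [NormedSpace ℝ V] {C : Set V} (hC : Convex ℝ C)
    (hCk : IsCompact C) {T : Finset V}
    (hT : C ⊆ ⋃ t ∈ T, (fun x => t + x) '' interior C) :
    ∃ ρ : ℝ, 0 < ρ ∧ ∀ y ∈ C, ∃ t ∈ T, ∀ l : ℝ, 0 < l → l ≤ 1 → ∀ e : V, ‖e‖ ≤ l * ρ →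
      y - l • t + e ∈ C := by
  obtain ⟨δ, hδ, hleb⟩ : ∃ δ > 0, ∀ v ∈ C, ∃ t ∈ T,
      ball v δ ⊆ (fun x => t + x) '' interior C := by
    have hop : ∀ t : T, IsOpen ((fun x => (t : V) + x) '' interior C) :=
      fun t => (Homeomorph.addLeft (t : V)).isOpenMap _ isOpen_interior
    have hcov : C ⊆ ⋃ t : T, (fun x => (t : V) + x) '' interior C := by
      intro v hv
      have h := hT hv
      simp only [Set.mem_iUnion] at h ⊢
      obtain ⟨t, ht, h⟩ := h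
      exact ⟨⟨t, ht⟩, h⟩
    obtain ⟨δ, hδ, h⟩ := lebesgue_number_lemma_of_metric hCk hop hcov
    refine ⟨δ, hδ, fun v hv => ?_⟩
    obtain ⟨t, ht⟩ := h v hv
    exact ⟨t, t.2, ht⟩
  refine ⟨δ / 2, by positivity, fun y hy => ?_⟩
  obtain ⟨t, ht, hb⟩ := hleb y hy
  refine ⟨t, ht, fun l hl0 hl1 e he => ?_⟩
  have h1 : y - t + l⁻¹ • e ∈ C := by
    have h2 : y + l⁻¹ • e ∈ ball y δ := by
      rw [mem_ball, dist_eq_norm, add_sub_cancel_left, norm_smul, norm_inv, Real.norm_eq_abs,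
        abs_of_pos hl0, inv_mul_lt_iff₀ hl0]
      have : 0 < l * δ := by positivity
      linarith
    obtain ⟨x, hx, hxe⟩ := hb h2
    have h3 : y - t + l⁻¹ • e = x := by
      have h4 : t + x = y + l⁻¹ • e := hxe
      have : x = (t + x) - t := by abel
      rw [this, h4]; abel
    rw [h3]
    exact interior_subset hx
  have h2 : y - l • t + e = (1 - l) • y + l • (y - t + l⁻¹ • e) := by
    rw [smul_add, smul_sub, smul_smul, mul_inv_cancel₀ hl0.ne', one_smul, sub_smul, one_smul]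
    abel
  rw [h2]
  exact hC hy h1 (by linarith) hl0.le (by ring)

/-- **Hulls of two sets.** -/
theorem hull (ν : E →L[ℝ] ℝ) (p₀ p₁ : E) (V : Submodule ℝ E) (C₀ : Set (ke ν)) (C₁ : Set V)
    (h₀ : Convex ℝ C₀) (k₀ : IsCompact C₀) (i₀ : (interior C₀).Nonempty)
    (h₁ : Convex ℝ C₁) (k₁ : IsCompact C₁) (i₁ : C₁.Nonempty)
    (hside : ∀ w ∈ C₁, ν p₀ < ν (p₁ + (w : E)))
    (N₀ N₁ : ℕ)
    (c₀ : ∃ T : Finset (ke ν), T.card ≤ N₀ ∧ C₀ ⊆ ⋃ t ∈ T, (fun x => t + x) '' interior C₀)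
    (c₁ : ∃ T : Finset V, T.card ≤ N₁ ∧ C₁ ⊆ ⋃ t ∈ T, (fun x => t + x) '' interior C₁)
    (K : Set E) (hKd : K = convexHull ℝ ((fun w : ke ν => p₀ + (w : E)) '' C₀ ∪
      (fun w : V => p₁ + (w : E)) '' C₁)) :
    Convex ℝ K ∧ IsCompact K ∧ (interior K).Nonempty ∧
      ∃ T : Finset E, T.card ≤ N₀ + N₁ ∧ K ⊆ ⋃ t ∈ T, (fun x => t + x) '' interior K := by
  classical
  obtain ⟨T₀, hT₀, c₀⟩ := c₀
  obtain ⟨T₁, hT₁, c₁⟩ := c₁
  set F₀ : Set E := (fun w : ke ν => p₀ + (w : E)) '' C₀ with hF₀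
  set F₁ : Set E := (fun w : V => p₁ + (w : E)) '' C₁ with hF₁
  have hF₀c : Convex ℝ F₀ := by
    rintro _ ⟨a, ha, rfl⟩ _ ⟨b, hb, rfl⟩ s t hs ht hst
    refine ⟨s • a + t • b, h₀ ha hb hs ht hst, ?_⟩
    simp only [Submodule.coe_add, Submodule.coe_smul, smul_add]
    have : p₀ = s • p₀ + t • p₀ := by rw [← add_smul, hst, one_smul]
    nth_rewrite 1 [this]
    abel
  have hF₁c : Convex ℝ F₁ := by
    rintro _ ⟨a, ha, rfl⟩ _ ⟨b, hb, rfl⟩ s t hs ht hst
    refine ⟨s • a + t • b, h₁ ha hb hs ht hst, ?_⟩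
    simp only [Submodule.coe_add, Submodule.coe_smul, smul_add]
    have : p₁ = s • p₁ + t • p₁ := by rw [← add_smul, hst, one_smul]
    nth_rewrite 1 [this]
    abel
  have hF₀k : IsCompact F₀ := k₀.image (by fun_prop)
  have hF₁k : IsCompact F₁ := k₁.image (by fun_prop)
  obtain ⟨b, hb⟩ := i₀
  have hF₀n : F₀.Nonempty := ⟨_, b, interior_subset hb, rfl⟩
  have hF₁n : F₁.Nonempty := i₁.image _
  have hK : Convex ℝ K := by rw [hKd]; exact convex_convexHull ℝ _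
  have hKk : IsCompact K := by
    have h1 : K = (fun p : E × E × ℝ => (1 - p.2.2) • p.1 + p.2.2 • p.2.1) ''
        (F₀ ×ˢ F₁ ×ˢ Set.Icc (0 : ℝ) 1) := by
      rw [hKd, hF₀c.convexHull_union hF₁c hF₀n hF₁n]
      ext x
      rw [mem_convexJoin]
      constructor
      · rintro ⟨x₀, hx₀, x₁, hx₁, a, s, ha, hs, has, hxe⟩
        refine ⟨(x₀, x₁, s), ⟨hx₀, hx₁, hs, by linarith⟩, ?_⟩
        rw [← hxe]
        show (1 - s) • x₀ + s • x₁ = a • x₀ + s • x₁
        congr 2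
        linarith
      · rintro ⟨⟨x₀, x₁, s⟩, ⟨hx₀, hx₁, hs, hs1⟩, rfl⟩
        exact ⟨x₀, hx₀, x₁, hx₁, 1 - s, s, sub_nonneg.2 hs1, hs, by simp, rfl⟩
    rw [h1]
    exact (hF₀k.prod (hF₁k.prod isCompact_Icc)).image (by fun_prop)
  have hsub₀ : F₀ ⊆ K := by
    rw [hKd]; exact Set.subset_union_left.trans (subset_convexHull ℝ _)
  have hsub₁ : F₁ ⊆ K := by
    rw [hKd]; exact Set.subset_union_right.trans (subset_convexHull ℝ _)
  have hdec : ∀ x ∈ K, ∃ x₀ ∈ F₀, ∃ x₁ ∈ F₁, ∃ s : ℝ, 0 ≤ s ∧ s ≤ 1 ∧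
      x = (1 - s) • x₀ + s • x₁ := by
    intro x hx
    rw [hKd, hF₀c.convexHull_union hF₁c hF₀n hF₁n, mem_convexJoin] at hx
    obtain ⟨x₀, hx₀, x₁, hx₁, a, s, ha, hs, has, hxe⟩ := hx
    exact ⟨x₀, hx₀, x₁, hx₁, s, hs, by linarith, by rw [← hxe]; congr 2; linarith⟩
  have hν₀ : ∀ x ∈ F₀, ν x = ν p₀ := by
    rintro _ ⟨w, -, rfl⟩
    have : ν (w : E) = 0 := w.2
    rw [map_add, this, add_zero]
  have hν₁ : ∀ x ∈ F₁, ν p₀ < ν x := by
    rintro _ ⟨w, hw, rfl⟩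
    exact hside w hw
  -- the highest point
  obtain ⟨z, hz, hzm⟩ := hF₁k.exists_isMaxOn hF₁n (f := fun x => ν x) ν.continuous.continuousOn
  set m : ℝ := ν z - ν p₀ with hm
  have hm0 : 0 < m := by have := hν₁ z hz; linarith
  obtain ⟨D, hD0, hD⟩ : ∃ D : ℝ, 0 < D ∧ ∀ x ∈ K, ‖z - x‖ ≤ D := by
    obtain ⟨R, hR⟩ := hKk.isBounded.subset_closedBall z
    refine ⟨|R| + 1, by positivity, fun x hx => ?_⟩
    have h1 := hR hx
    rw [mem_closedBall, dist_eq_norm, norm_sub_rev] at h1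
    exact h1.trans ((le_abs_self R).trans (by linarith))
  obtain ⟨D₁, hD₁0, hD₁⟩ : ∃ D : ℝ, 0 < D ∧ ∀ x ∈ C₁, ∀ y ∈ C₁, ‖x - y‖ ≤ D := by
    obtain ⟨R, hR⟩ := k₁.isBounded.exists_norm_le
    refine ⟨|R| + |R| + 1, by positivity, fun x hx y hy => ?_⟩
    have h1 := hR x hx
    have h2 := hR y hy
    have h3 := norm_sub_le x y
    have h4 := le_abs_self R
    linarith
  obtain ⟨ρ₀, hρ₀, g₀⟩ := gain h₀ k₀ c₀
  obtain ⟨ρ₁, hρ₁, g₁⟩ := gain h₁ k₁ c₁
  obtain ⟨r₀, hr₀, hbr⟩ : ∃ r : ℝ, 0 < r ∧ ∀ w : ke ν, ‖w‖ < r → b + w ∈ C₀ := by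
    obtain ⟨r, hr, h⟩ := Metric.isOpen_iff.mp isOpen_interior b hb
    refine ⟨r, hr, fun w hw => interior_subset (h ?_)⟩
    rw [mem_ball, dist_eq_norm, add_sub_cancel_left]
    exact hw
  obtain ⟨a, ha⟩ := i₁
  obtain ⟨n, hνn⟩ : ∃ n : E, ν n = 1 := ⟨m⁻¹ • (z - p₀), by
    rw [map_smul, map_sub, smul_eq_mul, ← hm, inv_mul_cancel₀ hm0.ne']⟩
  set C : ℝ := ‖n‖ + 2 * D / m with hC
  have hC0 : 0 < C := by positivity
  -- the step lengths
  obtain ⟨η, hη0, hη1, hη2, hη3, hη4⟩ : ∃ η : ℝ, 0 < η ∧ η ≤ 1 / 4 ∧ 2 * η / m ≤ 1 / 2 ∧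
      η * C ≤ 1 / 8 * ρ₀ / 2 ∧ η * D₁ ≤ 1 / 8 * ρ₁ := by
    have h1 : ∀ᶠ η : ℝ in 𝓝[>] 0, η ≤ 1 / 4 :=
      ((continuous_id.tendsto' (0 : ℝ) 0 rfl).mono_left nhdsWithin_le_nhds).eventually_le_const
        (by norm_num)
    have h2 : ∀ᶠ η : ℝ in 𝓝[>] 0, 2 * η / m ≤ 1 / 2 :=
      ((Continuous.tendsto' (by fun_prop : Continuous fun η : ℝ => 2 * η / m) 0 0
        (by simp)).mono_left nhdsWithin_le_nhds).eventually_le_const (by norm_num)
    have h3 : ∀ᶠ η : ℝ in 𝓝[>] 0, η * C ≤ 1 / 8 * ρ₀ / 2 :=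
      ((Continuous.tendsto' (by fun_prop : Continuous fun η : ℝ => η * C) 0 0
        (by simp)).mono_left nhdsWithin_le_nhds).eventually_le_const (by positivity)
    have h4 : ∀ᶠ η : ℝ in 𝓝[>] 0, η * D₁ ≤ 1 / 8 * ρ₁ :=
      ((Continuous.tendsto' (by fun_prop : Continuous fun η : ℝ => η * D₁) 0 0
        (by simp)).mono_left nhdsWithin_le_nhds).eventually_le_const (by positivity)
    have h5 : ∀ᶠ η : ℝ in 𝓝[>] 0, 0 < η := self_mem_nhdsWithin
    obtain ⟨η, h6⟩ := (h1.and (h2.and (h3.and (h4.and h5)))).exists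
    exact ⟨η, h6.2.2.2.2, h6.1, h6.2.1, h6.2.2.1, h6.2.2.2.1⟩
  -- lower part
  have low : ∀ x₀ ∈ F₀, ∀ x₁ ∈ F₁, ∀ s : ℝ, 0 ≤ s → s ≤ 1 / 2 → ∃ t ∈ T₀,
      (1 - s) • x₀ + s • x₁ - (1 / 8 : ℝ) • (t : E) + η • n ∈ interior K := by
    rintro _ ⟨y, hy, rfl⟩ x₁ hx₁ s hs0 hs1
    obtain ⟨t, ht, hg⟩ := g₀ y hy
    refine ⟨t, ht, ?_⟩
    set x : E := (1 - s) • (p₀ + (y : E)) + s • x₁ with hx
    have hxK : x ∈ K := hK (hsub₀ ⟨y, hy, rfl⟩) (hsub₁ hx₁) (by linarith) hs0 (by ring)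
    have hνy : ν (y : E) = 0 := y.2
    have hνt : ν (t : E) = 0 := t.2
    have hνx : ν x = ν p₀ + s * (ν x₁ - ν p₀) := by
      rw [hx]
      simp only [map_add, map_smul, smul_eq_mul, hνy]
      ring
    have hx1m : ν x₁ - ν p₀ ≤ m := by
      have : ν x₁ ≤ ν z := hzm hx₁
      rw [hm]; linarith
    have hx10 : 0 < ν x₁ - ν p₀ := by have := hν₁ x₁ hx₁; linarith
    have hgap : m / 2 ≤ ν z - ν x := by
      rw [hνx]
      have : s * (ν x₁ - ν p₀) ≤ 1 / 2 * m := mul_le_mul hs1 hx1m hx10.le (by norm_num)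
      have h2 : ν z = m + ν p₀ := by rw [hm]; ring
      rw [h2]
      linarith
    have hgap0 : 0 < ν z - ν x := by linarith [half_pos hm0]
    set τ : ℝ := η / (ν z - ν x) with hτ
    have hτ0 : 0 < τ := by positivity
    have hτ1 : τ ≤ 2 * η / m := by
      rw [hτ, div_le_div_iff₀ hgap0 hm0]
      nlinarith
    have hτ2 : τ ≤ 1 / 2 := hτ1.trans hη2
    have h1τ : 0 < 1 - τ := by linarith
    have h1s : 0 < 1 - s := by linarith
    set q : E := η • n - τ • (z - x) with hq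
    have hνq : ν q = 0 := by
      rw [hq]
      simp only [map_sub, map_smul, smul_eq_mul, hνn]
      rw [hτ]
      field_simp
      ring
    have hqn : ‖q‖ ≤ 1 / 8 * ρ₀ / 2 := by
      refine le_trans ?_ hη3
      calc ‖q‖ ≤ ‖η • n‖ + ‖τ • (z - x)‖ := norm_sub_le _ _
        _ ≤ η * ‖n‖ + 2 * η / m * D := by
            have e1 : ‖η • n‖ = η * ‖n‖ := norm_smul_of_nonneg hη0.le n
            have e2 : ‖τ • (z - x)‖ = τ * ‖z - x‖ := norm_smul_of_nonneg hτ0.le _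
            have := mul_le_mul hτ1 (hD x hxK) (norm_nonneg _) (by positivity)
            linarith
        _ = η * C := by rw [hC]; ring
    set g : E := x + (1 - τ)⁻¹ • (-((1 / 8 : ℝ) • (t : E)) + q) with hgd
    have htarget : x - (1 / 8 : ℝ) • (t : E) + η • n = (1 - τ) • g + τ • z := by
      rw [hgd, smul_add, smul_smul, mul_inv_cancel₀ h1τ.ne', one_smul, hq, sub_smul, one_smul,
        smul_sub]
      abel
    rw [htarget]
    have hνg : ν g = ν x := by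
      rw [hgd]
      simp only [map_add, map_smul, map_neg, smul_eq_mul, hνq, hνt]
      ring
    refine cone_int hK ν (r := 1 / 8 * ρ₀ / 2) (by positivity) ?_ (hsub₁ hz) ?_ hτ0 (by linarith)
    · intro w hw hwr
      -- the point of `F₀`
      set l : ℝ := (1 / 8) / ((1 - τ) * (1 - s)) with hl
      have hl0 : 0 < l := by positivity
      have hl1 : l ≤ 1 := by
        rw [hl, div_le_one (by positivity)]
        nlinarith
      set e : E := ((1 - τ) * (1 - s))⁻¹ • q + (1 - s)⁻¹ • w with he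
      have heν : e ∈ ke ν := by
        show ν e = 0
        rw [he]
        simp only [map_add, map_smul, smul_eq_mul, hνq, hw, mul_zero, add_zero]
      have hen : ‖(⟨e, heν⟩ : ke ν)‖ ≤ l * ρ₀ := by
        show ‖e‖ ≤ _
        have h2 : ‖e‖ ≤ ((1 - τ) * (1 - s))⁻¹ * ‖q‖ + (1 - s)⁻¹ * ‖w‖ := by
          refine (norm_add_le _ _).trans ?_
          rw [norm_smul, norm_smul, norm_inv, norm_inv, Real.norm_eq_abs, Real.norm_eq_abs,
            abs_of_pos h1s, abs_of_pos (mul_pos h1τ h1s)]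
        have h3 : (1 - s)⁻¹ * ‖w‖ ≤ ((1 - τ) * (1 - s))⁻¹ * ‖w‖ := by
          refine mul_le_mul_of_nonneg_right ?_ (norm_nonneg _)
          refine inv_anti₀ (by positivity) ?_
          nlinarith
        have h4 : ((1 - τ) * (1 - s))⁻¹ * ‖q‖ + ((1 - τ) * (1 - s))⁻¹ * ‖w‖ ≤
            ((1 - τ) * (1 - s))⁻¹ * (1 / 8 * ρ₀) := by
          rw [← mul_add]
          refine mul_le_mul_of_nonneg_left ?_ (by positivity)
          linarith
        have h5 : ((1 - τ) * (1 - s))⁻¹ * (1 / 8 * ρ₀) = l * ρ₀ := by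
          rw [hl]; field_simp
        linarith
      have hmem := hg l hl0 hl1 ⟨e, heν⟩ hen
      have hpt : g + w = (1 - s) • (p₀ + ((y - l • t + ⟨e, heν⟩ : ke ν) : E)) + s • x₁ := by
        simp only [Submodule.coe_add, Submodule.coe_sub, Submodule.coe_smul]
        rw [hgd, hx, he]
        simp only [smul_add, smul_sub, smul_neg, smul_smul]
        have e1 : (1 - s) * ((1 - τ) * (1 - s))⁻¹ = (1 - τ)⁻¹ := by field_simp
        have e2 : (1 - s) * (1 - s)⁻¹ = 1 := mul_inv_cancel₀ h1s.ne'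
        have e3 : (1 - s) * l = (1 - τ)⁻¹ * (1 / 8) := by rw [hl]; field_simp
        rw [e1, e2, e3, one_smul]
        abel
      rw [hpt]
      exact hK (hsub₀ ⟨_, hmem, rfl⟩) (hsub₁ hx₁) h1s.le hs0 (by ring)
    · rw [hνg]
      intro h
      rw [h] at hgap0
      linarith
  -- upper part
  have up : ∀ x₀ ∈ F₀, ∀ x₁ ∈ F₁, ∀ s : ℝ, 1 / 2 ≤ s → s ≤ 1 → ∃ t ∈ T₁,
      (1 - s) • x₀ + s • x₁ - (1 / 8 : ℝ) • (t : E) + η • (p₀ + (b : E) - (p₁ + (a : E))) ∈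
        interior K := by
    rintro x₀ hx₀ _ ⟨y, hy, rfl⟩ s hs0 hs1
    obtain ⟨t, ht, hg⟩ := g₁ y hy
    refine ⟨t, ht, ?_⟩
    have hsη : 1 / 4 ≤ s - η := by linarith
    have hsη0 : 0 < s - η := by linarith
    have h1sη : 0 < 1 - s + η := by linarith
    set l : ℝ := (1 / 8) / (s - η) with hl
    have hl0 : 0 < l := by positivity
    have hl1 : l ≤ 1 := by
      rw [hl, div_le_one hsη0]
      linarith
    have hmem := hg l hl0 hl1 ((η / (s - η)) • (y - a)) (by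
      rw [norm_smul, Real.norm_eq_abs, abs_of_pos (by positivity)]
      have h2 := hD₁ y hy a ha
      have h3 : η * ‖y - a‖ ≤ 1 / 8 * ρ₁ := (mul_le_mul_of_nonneg_left h2 hη0.le).trans hη4
      rw [hl, div_mul_eq_mul_div, div_mul_eq_mul_div]
      gcongr)
    set y₁ : E := p₁ + ((y - l • t + (η / (s - η)) • (y - a) : V) : E) with hy₁
    have hy₁F : y₁ ∈ F₁ := ⟨_, hmem, rfl⟩
    set g : E := (1 - s + η)⁻¹ • ((1 - s) • x₀ + η • (p₀ + (b : E))) with hgd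
    have htarget : (1 - s) • x₀ + s • (p₁ + (y : E)) - (1 / 8 : ℝ) • (t : E) +
        η • (p₀ + (b : E) - (p₁ + (a : E))) = (1 - (s - η)) • g + (s - η) • y₁ := by
      have e0 : (1 - (s - η)) = 1 - s + η := by ring
      rw [e0, hgd, smul_smul, mul_inv_cancel₀ h1sη.ne', one_smul, hy₁]
      simp only [Submodule.coe_add, Submodule.coe_sub, Submodule.coe_smul, smul_add, smul_sub,
        smul_smul]
      have e1 : (s - η) * l = 1 / 8 := by rw [hl]; field_simp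
      have e2 : (s - η) * (η / (s - η)) = η := by field_simp
      rw [e1, e2]
      module
    rw [htarget]
    have hνg : ν g = ν p₀ := by
      have hνb : ν (b : E) = 0 := b.2
      rw [hgd]
      simp only [map_add, map_smul, smul_eq_mul, hν₀ x₀ hx₀, hνb]
      field_simp
      ring
    refine cone_int hK ν (r := η * r₀) (by positivity) ?_ (hsub₁ hy₁F) ?_ hsη0 (by linarith)
    · intro w hw hwr
      refine hsub₀ ?_
      have hwm : ((1 - s + η) / η) • w ∈ ke ν := by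
        show ν _ = 0
        rw [map_smul, hw, smul_zero]
      have h2 : b + (⟨((1 - s + η) / η) • w, hwm⟩ : ke ν) ∈ C₀ := by
        refine hbr _ ?_
        show ‖((1 - s + η) / η) • w‖ < r₀
        rw [norm_smul, Real.norm_eq_abs, abs_of_pos (by positivity), div_mul_eq_mul_div,
          div_lt_iff₀ hη0]
        have h3 : (1 - s + η) * ‖w‖ ≤ 1 * ‖w‖ :=
          mul_le_mul_of_nonneg_right (by linarith) (norm_nonneg _)
        linarith
      have h3 : g + w = ((1 - s) / (1 - s + η)) • x₀ + (η / (1 - s + η)) •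
          (p₀ + ((b + (⟨((1 - s + η) / η) • w, hwm⟩ : ke ν) : ke ν) : E)) := by
        rw [hgd]
        simp only [Submodule.coe_add, smul_add, smul_smul]
        have e1 : η / (1 - s + η) * ((1 - s + η) / η) = 1 := by field_simp
        have e2 : (1 - s + η)⁻¹ * (1 - s) = (1 - s) / (1 - s + η) := by field_simp
        have e3 : (1 - s + η)⁻¹ * η = η / (1 - s + η) := by field_simp
        rw [e1, e2, e3, one_smul]
        abel
      rw [h3]
      exact hF₀c hx₀ ⟨_, h2, rfl⟩ (div_nonneg (by linarith) h1sη.le) (by positivity)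
        (by field_simp)
    · rw [hνg]
      exact (hν₁ _ hy₁F).ne
  refine ⟨hK, hKk, ?_, T₀.image (fun t : ke ν => (1 / 8 : ℝ) • (t : E) - η • n) ∪
    T₁.image (fun t : V => (1 / 8 : ℝ) • (t : E) - η • (p₀ + (b : E) - (p₁ + (a : E)))), ?_, ?_⟩
  · obtain ⟨x₀, hx₀⟩ := hF₀n
    obtain ⟨x₁, hx₁⟩ := hF₁n
    obtain ⟨t, -, h⟩ := low x₀ hx₀ x₁ hx₁ 0 le_rfl (by norm_num)
    exact ⟨_, h⟩
  · refine (Finset.card_union_le _ _).trans ?_
    exact add_le_add (Finset.card_image_le.trans hT₀) (Finset.card_image_le.trans hT₁)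
  · intro x hx
    obtain ⟨x₀, hx₀, x₁, hx₁, s, hs0, hs1, rfl⟩ := hdec x hx
    rcases le_total s (1 / 2) with h | h
    · obtain ⟨t, ht, hi⟩ := low x₀ hx₀ x₁ hx₁ s hs0 h
      refine Set.mem_iUnion₂.2 ⟨_, Finset.mem_union_left _ (Finset.mem_image_of_mem _ ht), _, hi, ?_⟩
      show _ + _ = _
      abel
    · obtain ⟨t, ht, hi⟩ := up x₀ hx₀ x₁ hx₁ s h hs1
      refine Set.mem_iUnion₂.2 ⟨_, Finset.mem_union_right _ (Finset.mem_image_of_mem _ ht), _, hi, ?_⟩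
      show _ + _ = _
      abel

end Pool.Agent.R753.PR
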