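import Pool.Agent.R753.PR.A
import Pool.Agent.R753.SJ.H

set_option autoImplicit false
set_option linter.unusedSectionVars false

/-!
# Hulls of two convex sets: dimensions three and four
-/

namespace Pool.Agent.R753.PR

open scoped Topology InnerProductSpace
open Metric Filter Module Pool.Agent.R753.SJ

variable {E : Type} [NormedAddCommGroup E] [InnerProductSpace ℝ E] [FiniteDimensional ℝ E]

lemma finrank_ke {ν : E →L[ℝ] ℝ} {x : E} (h : ν x ≠ 0) : finrank ℝ (ke ν) + 1 = finrank ℝ E := by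
  have hs : Function.Surjective ν.toLinearMap := by
    intro y
    refine ⟨(y / ν x) • x, ?_⟩
    show ν ((y / ν x) • x) = y
    rw [map_smul, smul_eq_mul]
    field_simp
  have h1 := LinearMap.finrank_range_add_finrank_ker ν.toLinearMap
  rw [LinearMap.range_eq_top.2 hs, finrank_top, finrank_self] at h1
  show finrank ℝ (LinearMap.ker ν.toLinearMap) + 1 = _
  omega

/-- Dimensions three and four. -/
theorem low_dim (ν : E →L[ℝ] ℝ) (p₀ p₁ : E) (V : Submodule ℝ E) (C₀ : Set (ke ν)) (C₁ : Set V)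
    (h₀ : Convex ℝ C₀) (k₀ : IsCompact C₀) (i₀ : (interior C₀).Nonempty)
    (h₁ : Convex ℝ C₁) (k₁ : IsCompact C₁) (i₁ : (interior C₁).Nonempty)
    (hside : ∀ w ∈ C₁, ν p₀ < ν (p₁ + (w : E)))
    (K : Set E) (hKd : K = convexHull ℝ ((fun w : ke ν => p₀ + (w : E)) '' C₀ ∪
      (fun w : V => p₁ + (w : E)) '' C₁)) :
    (finrank ℝ E ≤ 3 → finrank ℝ V ≤ 2 → ∃ T : Finset E,
      T.card ≤ 2 ^ (finrank ℝ E - 1) + 2 ^ finrank ℝ V ∧
        K ⊆ ⋃ t ∈ T, (fun x => t + x) '' interior K) ∧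
    (finrank ℝ E = 4 → finrank ℝ V ≤ 2 → ∃ T : Finset E,
      T.card ≤ 13 + 2 ^ finrank ℝ V ∧ K ⊆ ⋃ t ∈ T, (fun x => t + x) '' interior K) := by
  obtain ⟨a, ha⟩ := i₁
  have hne : ν (p₁ + (a : E) - p₀) ≠ 0 := by
    have := hside a (interior_subset ha)
    rw [map_sub]
    intro h
    linarith
  have hf := finrank_ke hne
  have hn₁ : C₁.Nonempty := ⟨a, interior_subset ha⟩
  refine ⟨fun h3 hV => ?_, fun h4 hV => ?_⟩
  · have c₀ := cover_le_two (V := ke ν) rfl (by omega) h₀ k₀ i₀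
    have c₁ := cover_le_two (V := V) rfl hV h₁ k₁ ⟨a, ha⟩
    have e : finrank ℝ E - 1 = finrank ℝ (ke ν) := by omega
    rw [e]
    exact (hull ν p₀ p₁ V C₀ C₁ h₀ k₀ i₀ h₁ k₁ hn₁ hside _ _ c₀ c₁ K hKd).2.2.2
  · have c₀ := cover_13 (V := ke ν) (by omega) h₀ k₀ i₀
    have c₁ := cover_le_two (V := V) rfl hV h₁ k₁ ⟨a, ha⟩
    exact (hull ν p₀ p₁ V C₀ C₁ h₀ k₀ i₀ h₁ k₁ hn₁ hside _ _ c₀ c₁ K hKd).2.2.2

end Pool.Agent.R753.PR
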