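import Pool.Agent.R753.PR.B

set_option autoImplicit false
set_option linter.unusedSectionVars false

/-!
# Hulls of two convex sets, given by affine embeddings
-/

namespace Pool.Agent.R753.PR

open scoped Topology
open Metric Filter Module Pool.Agent.R753.SJ

lemma cover_symm {V W : Type*} [AddCommGroup V] [TopologicalSpace V] [Module ℝ V]
    [AddCommGroup W] [TopologicalSpace W] [Module ℝ W] (e : V ≃L[ℝ] W) (P : Set V) (n : ℕ)
    (h : ∃ T : Finset V, T.card ≤ n ∧ P ⊆ ⋃ t ∈ T, (fun x => t + x) '' interior P) :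
    ∃ T : Finset W, T.card ≤ n ∧ e '' P ⊆ ⋃ t ∈ T, (fun x => t + x) '' interior (e '' P) := by
  have h1 : e.symm '' (e '' P) = P := by
    rw [Set.image_image]; simp
  exact cover_equiv e.symm (e '' P) n (by rw [h1]; exact h)

lemma body_image {V W : Type*} [NormedAddCommGroup V] [NormedSpace ℝ V]
    [NormedAddCommGroup W] [NormedSpace ℝ W] (e : V ≃L[ℝ] W) {P : Set V}
    (h : Convex ℝ P) (k : IsCompact P) (i : (interior P).Nonempty) :
    Convex ℝ (e '' P) ∧ IsCompact (e '' P) ∧ (interior (e '' P)).Nonempty := by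
  refine ⟨h.linear_image e.toLinearEquiv.toLinearMap, k.image e.continuous, ?_⟩
  have hint : interior (e '' P) = e '' interior P := (e.toHomeomorph.image_interior P).symm
  rw [hint]
  exact i.image _

variable {F U W : Type} [NormedAddCommGroup F] [InnerProductSpace ℝ F] [FiniteDimensional ℝ F]
  [NormedAddCommGroup U] [InnerProductSpace ℝ U] [FiniteDimensional ℝ U]
  [NormedAddCommGroup W] [InnerProductSpace ℝ W] [FiniteDimensional ℝ W]

/-- The set-up: from affine embeddings to subspaces. -/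
theorem setup (hd : finrank ℝ F = finrank ℝ U + 1) (ν : F →L[ℝ] ℝ)
    (A : U →ᵃ[ℝ] F) (B : W →ᵃ[ℝ] F) (hA : Function.Injective A) (hB : Function.Injective B)
    {C : Set U} {D : Set W} (iC : (interior C).Nonempty) (iD : D.Nonempty) (a : ℝ)
    (h0 : ∀ x ∈ C, ν (A x) = a) (h1 : ∀ y ∈ D, a < ν (B y)) :
    ∃ (V : Submodule ℝ F) (e₀ : U ≃L[ℝ] ke ν) (e₁ : W ≃L[ℝ] V),
      A '' C = (fun w : ke ν => A 0 + (w : F)) '' (e₀ '' C) ∧
      B '' D = (fun w : V => B 0 + (w : F)) '' (e₁ '' D) ∧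
      (∀ w ∈ e₁ '' D, ν (A 0) < ν (B 0 + (w : F))) := by
  have hAl : Function.Injective A.linear := A.linear_injective_iff.2 hA
  have hBl : Function.Injective B.linear := B.linear_injective_iff.2 hB
  have hAx : ∀ x, A x = A 0 + A.linear x := by
    intro x
    have := A.map_vadd 0 x
    rw [vadd_eq_add, add_zero, vadd_eq_add] at this
    rw [this, add_comm]
  have hBx : ∀ x, B x = B 0 + B.linear x := by
    intro x
    have := B.map_vadd 0 x
    rw [vadd_eq_add, add_zero, vadd_eq_add] at this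
    rw [this, add_comm]
  -- `ν ∘ A.linear = 0`
  have hker : ∀ v, ν (A.linear v) = 0 := by
    intro v
    obtain ⟨c, hc⟩ := iC
    have hcont : Filter.Tendsto (fun s : ℝ => c + s • v) (𝓝 0) (𝓝 c) := by
      have : Continuous fun s : ℝ => c + s • v := by fun_prop
      have h := this.tendsto 0
      simpa using h
    have hev : ∀ᶠ s : ℝ in 𝓝 0, c + s • v ∈ C :=
      hcont.eventually (mem_interior_iff_mem_nhds.1 hc)
    obtain ⟨r, hr, hs⟩ := Metric.eventually_nhds_iff.1 hev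
    have h2 := h0 _ (hs (y := r / 2) (by simp [abs_of_pos hr]; linarith))
    have h3 := h0 _ (interior_subset hc)
    rw [hAx, map_add] at h2 h3
    rw [map_add, map_add, map_smul, map_smul, smul_eq_mul] at h2
    have h4 : r / 2 * ν (A.linear v) = 0 := by linarith
    rcases mul_eq_zero.1 h4 with h | h
    · linarith
    · exact h
  have hA0 : ν (A 0) = a := by
    obtain ⟨c, hc⟩ := iC
    have h3 := h0 _ (interior_subset hc)
    rw [hAx, map_add, hker, add_zero] at h3
    exact h3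
  have hne : ∃ x, ν x ≠ 0 := by
    obtain ⟨y, hy⟩ := iD
    refine ⟨B y - A 0, ?_⟩
    have := h1 y hy
    rw [map_sub]
    intro h
    linarith
  obtain ⟨x, hx⟩ := hne
  have hf := finrank_ke hx
  let LA : U →ₗ[ℝ] ke ν := A.linear.codRestrict (ke ν) (fun v => hker v)
  have hLA : Function.Injective LA := by
    intro u v huv
    exact hAl (congrArg Subtype.val huv)
  let e₀ : U ≃L[ℝ] ke ν :=
    (LinearMap.linearEquivOfInjective LA hLA (by omega)).toContinuousLinearEquiv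
  let e₁ : W ≃L[ℝ] LinearMap.range B.linear :=
    (LinearEquiv.ofInjective B.linear hBl).toContinuousLinearEquiv
  have he₀ : ∀ u, ((e₀ u : ke ν) : F) = A.linear u := fun u => rfl
  have he₁ : ∀ u, ((e₁ u : LinearMap.range B.linear) : F) = B.linear u := fun u => rfl
  refine ⟨LinearMap.range B.linear, e₀, e₁, ?_, ?_, ?_⟩
  · rw [Set.image_image]
    refine Set.image_congr fun x _ => ?_
    rw [he₀, hAx]
  · rw [Set.image_image]
    refine Set.image_congr fun x _ => ?_
    rw [he₁, hBx]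
  · rintro _ ⟨y, hy, rfl⟩
    rw [he₁, ← hBx, hA0]
    exact h1 y hy

/-- Hulls of two convex sets, given by affine embeddings. -/
theorem hullAff (hd : finrank ℝ F = finrank ℝ U + 1) (ν : F →L[ℝ] ℝ)
    (A : U →ᵃ[ℝ] F) (B : W →ᵃ[ℝ] F) (hA : Function.Injective A) (hB : Function.Injective B)
    {C : Set U} {D : Set W}
    (hC : Convex ℝ C) (kC : IsCompact C) (iC : (interior C).Nonempty)
    (hD : Convex ℝ D) (kD : IsCompact D) (iD : (interior D).Nonempty) (a : ℝ)
    (h0 : ∀ x ∈ C, ν (A x) = a) (h1 : ∀ y ∈ D, a < ν (B y))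
    (K : Set F) (hK : K = convexHull ℝ (A '' C ∪ B '' D)) :
    (∀ N₀ N₁ : ℕ,
      (∃ T : Finset U, T.card ≤ N₀ ∧ C ⊆ ⋃ t ∈ T, (fun x => t + x) '' interior C) →
      (∃ T : Finset W, T.card ≤ N₁ ∧ D ⊆ ⋃ t ∈ T, (fun x => t + x) '' interior D) →
      Convex ℝ K ∧ IsCompact K ∧ (interior K).Nonempty ∧
      ∃ T : Finset F, T.card ≤ N₀ + N₁ ∧ K ⊆ ⋃ t ∈ T, (fun x => t + x) '' interior K) ∧
    (finrank ℝ U ≤ 2 → finrank ℝ W ≤ 2 → ∃ T : Finset F,
      T.card ≤ 2 ^ (finrank ℝ U) + 2 ^ finrank ℝ W ∧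
        K ⊆ ⋃ t ∈ T, (fun x => t + x) '' interior K) ∧
    (finrank ℝ U = 3 → finrank ℝ W ≤ 2 → ∃ T : Finset F,
      T.card ≤ 13 + 2 ^ finrank ℝ W ∧ K ⊆ ⋃ t ∈ T, (fun x => t + x) '' interior K) := by
  obtain ⟨V, e₀, e₁, q0, q1, q2⟩ := setup hd ν A B hA hB iC (iD.mono interior_subset) a h0 h1
  obtain ⟨r1, r2, r3⟩ := body_image e₀ hC kC iC
  obtain ⟨s1, s2, s3⟩ := body_image e₁ hD kD iD
  rw [q0, q1] at hK
  have hV : finrank ℝ V = finrank ℝ W := e₁.toLinearEquiv.finrank_eq.symm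
  obtain ⟨l3, l4⟩ := low_dim ν (A 0) (B 0) V (e₀ '' C) (e₁ '' D) r1 r2 r3 s1 s2 s3 q2 K hK
  refine ⟨fun N₀ N₁ c₀ c₁ => ?_, fun h2 h3 => ?_, fun h2 h3 => ?_⟩
  · exact hull ν (A 0) (B 0) V (e₀ '' C) (e₁ '' D) r1 r2 r3 s1 s2 (s3.mono interior_subset) q2
      N₀ N₁ (cover_symm e₀ C N₀ c₀) (cover_symm e₁ D N₁ c₁) K hK
  · have := l3 (by omega) (by omega)
    rw [hV, hd] at this
    exact this
  · have := l4 (by omega) (by omega)
    rw [hV] at this
    exact this

end Pool.Agent.R753.PR
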